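import Pool.Agent.H410.FH.CoreRA

/-! # Project FH (helper664), job CORER (helper410) -/

set_option autoImplicit false

namespace Pool.Agent.H410.FH

open MvPolynomial Filter Topology Metric Pool.Agent.W996.EC Pool.Agent.Q72.EG Pool.Agent.H664.FH

/-- the fixed point argument on a ball around `iκ` -/
theorem fixpt {n : ℕ} {i : Fin n} {e k κ : Fin n → ℝ} {w : (Fin n → ℂ) → ℂ} {r : ℂ} {B B' ρ : ℝ}
    (h : Fin n → (Fin n → ℂ) → ℂ) (hei : e i = 1) (hρ : 0 < ρ) (hB : ‖r‖ ≤ B)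
    (hw : DifferentiableOn ℂ w (ball (fun l => Complex.I * (κ l : ℂ)) ρ))
    (hw1 : ∀ u ∈ ball (fun l => Complex.I * (κ l : ℂ)) ρ, ‖w u + u i - r‖ ≤ 1)
    (hhd : ∀ l, DifferentiableOn ℂ (h l) (ball (fun l => Complex.I * (κ l : ℂ)) ρ))
    (hhb : ∀ l, ∀ u ∈ ball (fun l => Complex.I * (κ l : ℂ)) ρ, ‖h l u‖ ≤ B')
    (hB' : 8 * (4 + (B + 1) * ‖e‖ + B') < ρ) :
    ∃ u ∈ ball (fun l => Complex.I * (κ l : ℂ)) ρ, ∃ M : Fin n → ℤ, ∀ l, l ≠ i →
      cp k e w u l = 2 * Real.pi * Complex.I * (M l : ℂ) + h l u := by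
  classical
  have hπ : 0 < 2 * Real.pi := by positivity
  set c : Fin n → ℂ := fun l => Complex.I * (κ l : ℂ) with hc
  set M : Fin n → ℤ := fun l => round ((k l + κ l - κ i * e l) / (2 * Real.pi)) with hM
  set up : (Fin n → ℂ) → Fin n → ℂ := fun u => Function.update u i (Complex.I * (κ i : ℂ)) with hup
  have hupi : ∀ u, up u i = Complex.I * (κ i : ℂ) := fun u => by rw [hup]; simp
  have hupb : ∀ u ∈ ball c ρ, up u ∈ ball c ρ := by
    intro u hu
    rw [mem_ball, dist_eq_norm, pi_norm_lt_iff hρ] at hu ⊢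
    intro l
    by_cases hl : l = i
    · subst hl
      simp only [Pi.sub_apply, hupi, hc, sub_self, norm_zero]
      exact hρ
    · have : up u l = u l := by rw [hup]; simp [Function.update_of_ne hl]
      rw [Pi.sub_apply, this]
      exact hu l
  have hupd : DifferentiableOn ℂ up (ball c ρ) := by
    rw [differentiableOn_pi]
    intro l
    by_cases hl : l = i
    · subst hl
      simp only [hupi]
      exact differentiableOn_const _
    · have : (fun u : Fin n → ℂ => up u l) = fun u => u l := by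
        funext u
        rw [hup]; simp [Function.update_of_ne hl]
      rw [this]
      exact differentiableOn_apply l _
  set g : (Fin n → ℂ) → Fin n → ℂ := fun u l => if l = i then 0 else
    2 * Real.pi * Complex.I * (M l : ℂ) - Complex.I * (k l : ℂ) - Complex.I * (κ l : ℂ) + h l (up u) -
      w (up u) * (e l : ℂ) with hg
  have hgd : DifferentiableOn ℂ g (ball c ρ) := by
    rw [differentiableOn_pi]
    intro l
    by_cases hl : l = i
    · simp only [hg, if_pos hl]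
      exact differentiableOn_const _
    · simp only [hg, if_neg hl]
      exact (((hhd l).comp hupd hupb).const_add _).sub ((hw.comp hupd hupb).mul_const _)
  have he0 : 0 ≤ ‖e‖ := norm_nonneg e
  have hB0 : 0 ≤ B := (norm_nonneg r).trans hB
  have hc0 : c ∈ ball c ρ := mem_ball_self hρ
  have hB'0 : 0 ≤ B' := (norm_nonneg _).trans (hhb i c hc0)
  have hgb : ∀ u ∈ ball c ρ, ‖g u‖ ≤ 4 + (B + 1) * ‖e‖ + B' := by
    intro u hu
    rw [pi_norm_le_iff_of_nonneg (by positivity)]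
    intro l
    by_cases hl : l = i
    · simp only [hg, if_pos hl, norm_zero]
      positivity
    · simp only [hg, if_neg hl]
      have h1 := hw1 (up u) (hupb u hu)
      rw [hupi] at h1
      have h2 := hhb l (up u) (hupb u hu)
      have h3 : |e l| ≤ ‖e‖ := norm_le_pi_norm e l
      have h4 : |2 * Real.pi * (M l : ℝ) - (k l + κ l - κ i * e l)| ≤ 4 := by
        have h5 := abs_sub_round ((k l + κ l - κ i * e l) / (2 * Real.pi))
        have h6 : 2 * Real.pi * (M l : ℝ) - (k l + κ l - κ i * e l) =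
            -(2 * Real.pi * ((k l + κ l - κ i * e l) / (2 * Real.pi) - (M l : ℝ))) := by
          field_simp
          ring
        rw [h6, abs_neg, abs_mul, abs_of_pos hπ]
        have h7 := Real.pi_lt_four
        calc 2 * Real.pi * |(k l + κ l - κ i * e l) / (2 * Real.pi) - (M l : ℝ)|
            ≤ 2 * Real.pi * (1 / 2) := by gcongr
          _ ≤ 4 := by linarith
      have h5 : 2 * Real.pi * Complex.I * (M l : ℂ) - Complex.I * (k l : ℂ) - Complex.I * (κ l : ℂ) +
          h l (up u) - w (up u) * (e l : ℂ) =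
          Complex.I * ((2 * Real.pi * (M l : ℝ) - (k l + κ l - κ i * e l) : ℝ) : ℂ) +
          h l (up u) - (w (up u) + Complex.I * (κ i : ℂ) - r) * (e l : ℂ) - r * (e l : ℂ) := by
        push_cast
        ring
      rw [h5]
      have h6 : ‖Complex.I * ((2 * Real.pi * (M l : ℝ) - (k l + κ l - κ i * e l) : ℝ) : ℂ)‖ ≤ 4 := by
        rw [norm_mul, Complex.norm_I, one_mul, Complex.norm_real]
        exact h4
      have h7 : ‖(w (up u) + Complex.I * (κ i : ℂ) - r) * (e l : ℂ)‖ ≤ 1 * ‖e‖ := by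
        rw [norm_mul, Complex.norm_real]
        exact mul_le_mul h1 h3 (norm_nonneg _) (by norm_num)
      have h8 : ‖r * (e l : ℂ)‖ ≤ B * ‖e‖ := by
        rw [norm_mul, Complex.norm_real]
        exact mul_le_mul hB h3 (norm_nonneg _) hB0
      calc _ ≤ ‖Complex.I * ((2 * Real.pi * (M l : ℝ) - (k l + κ l - κ i * e l) : ℝ) : ℂ)‖ +
            ‖h l (up u)‖ + ‖(w (up u) + Complex.I * (κ i : ℂ) - r) * (e l : ℂ)‖ +
            ‖r * (e l : ℂ)‖ :=
            (norm_sub_le _ _).trans (add_le_add ((norm_sub_le _ _).trans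
              (add_le_add (norm_add_le _ _) le_rfl)) le_rfl)
        _ ≤ 4 + B' + 1 * ‖e‖ + B * ‖e‖ := by linarith
        _ = _ := by ring
  obtain ⟨u, hu, hfix⟩ := Pool.Agent.Q252.EG.fix n c ρ _ g hρ hgd hgb hB'
  refine ⟨u, hu, M, fun l hl => ?_⟩
  have hui : up u = u := by
    have h1 := congrFun hfix i
    simp only [Pi.add_apply, hg, if_true, add_zero] at h1
    have h2 : Complex.I * (κ i : ℂ) = u i := h1.symm
    show Function.update u i (Complex.I * (κ i : ℂ)) = u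
    rw [h2, Function.update_eq_self]
  have h1 := congrFun hfix l
  simp only [Pi.add_apply, hg, if_neg hl, hui, hc] at h1
  simp only [cp]
  rw [h1]
  ring

theorem coreR (hgood : Pool.Agent.H664.FH.S_good) (hrel : Pool.Agent.H664.FH.S_rel)
    (hzero : Pool.Agent.H664.FH.S_zero) (hdoubl : Pool.Agent.H664.FH.S_doubl) :
    Pool.Agent.H664.FH.S_coreR := by
  classical
  intro n E _ _ G H0 i hTi hlin hH0 hflat
  obtain ⟨e, B, hαe, hflat⟩ := hflat
  have hei : e i = 1 := by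
    have : ∑ l, (Pi.single i 1 : Fin n → ℝ) l * e l = e i := by
      simp [Pi.single_apply]
    rw [← this]; exact hαe
  have hαsum : ∀ u : Fin n → ℂ, ∑ l, (((Pi.single i 1 : Fin n → ℝ) l : ℝ) : ℂ) * u l = u i := by
    intro u
    rw [Finset.sum_eq_single i]
    · simp
    · intro b _ hb
      simp [Pi.single_eq_of_ne hb]
    · intro h; exact absurd (Finset.mem_univ i) h
  obtain ⟨l0, hl0, hpd⟩ := exists_pd G.hP hlin
  have hprime : Prime G.P := G.hP.prime
  have hpe : ∑ l, C (e l : ℂ) * pderiv l G.P ≠ 0 := by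
    obtain ⟨D, hD⟩ := hflat 1 (fun h => hprime.not_isUnit (isUnit_of_dvd_one h))
    obtain ⟨T, hT1, hT2, k, r, w, -, -, hw⟩ := hD 0
    exact pe_ne hprime.ne_zero (ρ := T ^ (1 / 4 : ℝ)) (by positivity) (fun u hu => (hw u hu).1)
  obtain ⟨Hh, hHh⟩ := hgood n E G H0 i hH0 hTi
  choose F c hFne hFc hFT hFrel using fun l => hrel n E G i l
  -- the polynomial `H`
  set S : Fin n → Finset ℕ := fun l => (F l).image Prod.snd with hS
  set H : MvPolynomial (Option (Fin n)) ℂ := Hh * ∏ l, ∏ b ∈ S l, Ab (F l) (c l) b with hH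
  set FH : Finset ℕ := (Finset.range ((optionEquivLeft ℂ (Fin n) H).natDegree + 1)).filter
      (fun m => ¬ G.P ∣ cf H m) with hFH
  have hFHsum : ∀ (x : Fin n → ℂ) (z : ℂ), eval x G.P = 0 →
      eval (oe z x) H = ∑ m ∈ FH, eval x (cf H m) * z ^ m := fun x z hx => eval_oe_filter H hx z
  have hFHne : FH.Nonempty := by
    by_contra hcon
    rw [Finset.not_nonempty_iff_eq_empty, Finset.filter_eq_empty_iff] at hcon
    have hall : ∀ j, G.P ∣ cf H j := by
      intro j
      by_cases hj : j ∈ Finset.range ((optionEquivLeft ℂ (Fin n) H).natDegree + 1)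
      · exact not_not.1 (hcon hj)
      · have : cf H j = 0 := by
          unfold cf
          apply Polynomial.coeff_eq_zero_of_natDegree_lt
          rw [Finset.mem_range] at hj
          omega
        rw [this]
        exact dvd_zero _
    have hCP : Prime (Polynomial.C G.P) := Polynomial.prime_C_iff.2 hprime
    have hd : Polynomial.C G.P ∣ optionEquivLeft ℂ (Fin n) H :=
      (Polynomial.C_dvd_iff_dvd_coeff _ _).2 hall
    rw [hH, map_mul, map_prod] at hd
    rcases hCP.dvd_or_dvd hd with h | h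
    · apply hHh.gen
      rw [aeval_oe_sum]
      refine Finset.sum_eq_zero fun m _ => ?_
      have h5 : G.P ∣ cf Hh m := (Polynomial.C_dvd_iff_dvd_coeff _ _).1 h m
      rw [(G.hx _).2 h5, zero_mul]
    · obtain ⟨l, -, hl⟩ := hCP.exists_mem_finset_dvd h
      rw [map_prod] at hl
      obtain ⟨b, hb, hb'⟩ := hCP.exists_mem_finset_dvd hl
      obtain ⟨e', he', rfl⟩ := Finset.mem_image.1 hb
      have := (Polynomial.C_dvd_iff_dvd_coeff _ _).1 hb' e'.1
      rw [coeff_Ab _ _ he'] at this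
      exact hFc l e' he' this
  obtain ⟨R, hPR, hR⟩ := hzero n G.P i l0 e FH (cf H) G.hP hei hl0 hpd hpe hFHne
    (fun m hm => (Finset.mem_filter.1 hm).2)
  obtain ⟨D, hD⟩ := hflat R hPR
  obtain ⟨D1, K1, hZ⟩ := hR R dvd_rfl D (B + 1)
  obtain ⟨sY, hsY0, hsY⟩ := Pool.Agent.Q206.EG.const_le (Real.exp (B + 1))
  obtain ⟨D2, hD2a, hD2b⟩ : ∃ D2 : ℝ, D ≤ D2 ∧ sY ≤ D2 := ⟨max D sY, le_max_left _ _, le_max_right _ _⟩
  obtain ⟨D3, hD30, hD3⟩ := pbo H D2
  obtain ⟨K2, D4, σ, hσ, hdb⟩ := hdoubl n (max D1 D3) (1 / 4) (by norm_num)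
  obtain ⟨D5, hD5a, hD5b⟩ : ∃ D5 : ℝ, D2 ≤ D5 ∧ D4 ≤ D5 := ⟨max D2 D4, le_max_left _ _, le_max_right _ _⟩
  obtain ⟨D6, hD60, htwo⟩ := twoo (Finset.univ.biUnion fun l => (S l).image fun b => (l, b))
    (fun p : Fin n × ℕ => Ab (F p.1) (c p.1) p.2) H (by
      intro p hp
      simp only [Finset.mem_biUnion, Finset.mem_univ, true_and, Finset.mem_image] at hp
      obtain ⟨l, b, hb, rfl⟩ := hp
      refine dvd_mul_of_dvd_right ?_ _
      exact (Finset.dvd_prod_of_mem (fun b => Ab (F l) (c l) b) hb).trans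
        (Finset.dvd_prod_of_mem (fun l => ∏ b ∈ S l, Ab (F l) (c l) b) (Finset.mem_univ l))) D5
  obtain ⟨N, hN0, hcN⟩ : ∃ N : ℝ, 0 ≤ N ∧ ∀ l, ((S l).card : ℝ) ≤ N :=
    ⟨∑ l, ((S l).card : ℝ), Finset.sum_nonneg fun l _ => Nat.cast_nonneg _, fun l =>
      Finset.single_le_sum (f := fun l => ((S l).card : ℝ)) (fun _ _ => Nat.cast_nonneg _)
        (Finset.mem_univ l)⟩
  obtain ⟨K3, hK3⟩ := ev_rpow hσ (16 * (14 + (B + 1) * ‖e‖ + 6 * (N + 2 * D6)))
  obtain ⟨T, hKT, hT2, k, r, w, hrB, hwd, hw⟩ := hD (max 1 (max K1 (max K2 K3)))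
  have hT0 : 0 < T := by linarith
  have hT1 : 1 ≤ T := by linarith
  have hlog : 0 ≤ Real.log T := Real.log_nonneg hT1
  have hB0 : 0 ≤ B := (norm_nonneg r).trans hrB
  have he0 : 0 ≤ ‖e‖ := norm_nonneg e
  have k1 : K1 ≤ T := ((le_max_left _ _).trans (le_max_right _ _)).trans hKT
  have k2 : K2 ≤ T := (((le_max_left _ _).trans (le_max_right _ _)).trans
    (le_max_right _ _)).trans hKT
  have k3 : K3 ≤ T := (((le_max_right _ _).trans (le_max_right _ _)).trans
    (le_max_right _ _)).trans hKT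
  have hexp : ∀ {a b : ℝ}, a ≤ b → T ^ a ≤ T ^ b := fun h =>
    Real.rpow_le_rpow_of_exponent_le hT1 h
  have hT4 : 1 ≤ T ^ (1 / 4 : ℝ) := Real.one_le_rpow hT1 (by norm_num)
  set Λ : ℝ := T ^ (1 / 4 : ℝ) with hΛ
  set X : (Fin n → ℂ) → Fin n → ℂ := cp k e w with hX
  set Y : (Fin n → ℂ) → ℂ := fun u => Complex.exp (X u i) with hY
  have hXd : DifferentiableOn ℂ X (ball 0 Λ) := cp_diff hwd
  have hYd : DifferentiableOn ℂ Y (ball 0 Λ) := (differentiableOn_pi.1 hXd i).cexp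
  have hw1 : ∀ u ∈ ball (0 : Fin n → ℂ) Λ, ‖w u + u i - r‖ ≤ 1 := by
    intro u hu
    have h1 := (hw u hu).2.1
    rw [hαsum] at h1
    have h2 : (1 : ℝ) ≤ max 1 (max K1 (max K2 K3)) := le_max_left _ _
    have h3 := norm_nonneg (w u + u i - r)
    nlinarith
  have hXi : ∀ u, X u i = Complex.I * (k i : ℂ) + (w u + u i) := by
    intro u
    simp only [hX, cp, hei]
    push_cast
    ring
  have hre : ∀ u ∈ ball (0 : Fin n → ℂ) Λ, |(X u i).re| ≤ B + 1 := by
    intro u hu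
    have h1 : (X u i).re = (w u + u i).re := by
      rw [hXi]
      simp
    rw [h1]
    calc |(w u + u i).re| ≤ ‖w u + u i‖ := Complex.abs_re_le_norm _
      _ = ‖r + (w u + u i - r)‖ := by congr 1; ring
      _ ≤ ‖r‖ + ‖w u + u i - r‖ := norm_add_le _ _
      _ ≤ B + 1 := add_le_add hrB (hw1 u hu)
  have hYn : ∀ u ∈ ball (0 : Fin n → ℂ) Λ, ‖Y u‖ ≤ T ^ D2 := by
    intro u hu
    have h1 : ‖Y u‖ ≤ Real.exp (B + 1) := by
      simp only [hY, Complex.norm_exp]
      exact Real.exp_le_exp.2 ((le_abs_self _).trans (hre u hu))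
    exact (h1.trans (hsY T hT2)).trans (hexp hD2b)
  have hXn : ∀ u ∈ ball (0 : Fin n → ℂ) Λ, ‖X u‖ ≤ T ^ D2 := fun u hu =>
    (hw u hu).2.2.1.trans (hexp hD2a)
  have h01 : ball (0 : Fin n → ℂ) 1 ⊆ ball 0 Λ := ball_subset_ball hT4
  obtain ⟨u1, hu1, hlow1⟩ := hZ T k1 hT2 k w (hwd.mono h01) (fun u hu =>
    ⟨(hw u (h01 hu)).1, (hw u (h01 hu)).2.2.1, (hw u (h01 hu)).2.2.2, hre u (h01 hu)⟩)
  have hfd : DifferentiableOn ℂ (fun u => eval (oe (Y u) (X u)) H) (ball 0 Λ) := by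
    refine Pool.Agent.Q239.EG.diff_eval (fun o => ?_) H
    rcases o with _ | l
    · exact hYd
    · exact differentiableOn_pi.1 hXd l
  obtain ⟨κ, hκsub, hκlow⟩ := hdb T k2 (fun u => eval (oe (Y u) (X u)) H) hfd
    (fun u hu => (hD3 T hT2 (X u) (Y u) (hXn u hu) (hYn u hu)).trans (hexp (le_max_right _ _)))
    ⟨u1, hu1, by
      rw [hFHsum _ _ (hw u1 (h01 hu1)).1]
      exact (hexp (neg_le_neg (le_max_left _ _))).trans hlow1⟩
  set cc : Fin n → ℂ := fun l => Complex.I * (κ l : ℂ) with hcc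
  set ρ : ℝ := T ^ σ with hρ
  have hρ0 : 0 < ρ := Real.rpow_pos_of_pos hT0 _
  have hc0 : cc ∈ ball cc ρ := mem_ball_self hρ0
  have hHne : ∀ u ∈ ball cc ρ, eval (oe (Y u) (X u)) H ≠ 0 := by
    intro u hu h0
    have h1 := hκlow u hu
    rw [h0, norm_zero] at h1
    exact absurd h1 (not_le.2 (Real.rpow_pos_of_pos hT0 _))
  have hHhne : ∀ u ∈ ball cc ρ, eval (oe (Y u) (X u)) Hh ≠ 0 := by
    intro u hu h0
    apply hHne u hu
    rw [hH, map_mul, h0, zero_mul]
  obtain ⟨p0, hp0, hp0i⟩ := hHh.ex (X cc) (Y cc) (hw cc (hκsub hc0)).1 (hHhne cc hc0)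
  obtain ⟨p, hpd', hpc, hp⟩ := hHh.sheet (Fin n → ℂ) (ball cc ρ) X Y isOpen_ball
    (convex_ball _ _) (hXd.mono hκsub) (hYd.mono hκsub)
    (fun u hu => ⟨(hw u (hκsub hu)).1, hHhne u hu⟩) cc hc0 p0 hp0 hp0i
  have hpne : ∀ u ∈ ball cc ρ, (∀ l, p u l ≠ 0) ∧ eval (Sum.elim (X u) (p u)) H0 ≠ 0 := by
    intro u hu
    apply hHh.ne (X u) (p u) (hp u hu).1
    rw [(hp u hu).2]
    exact hHhne u hu
  -- bounds for the coordinates
  obtain ⟨B', hB'⟩ : ∃ B' : ℝ, B' = (N + 2 * D6) * (1 + Real.log T) := ⟨_, rfl⟩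
  have hB'0 : 0 ≤ B' := by
    rw [hB']
    exact mul_nonneg (by linarith) (by linarith)
  have hlogp : ∀ u ∈ ball cc ρ, ∀ l, |Real.log ‖p u l‖| ≤ B' := by
    intro u hu l
    have hSne : (S l).Nonempty := (hFne l).image _
    have hA := htwo T hT2 (X u) (Y u) ((hXn u (hκsub hu)).trans (hexp hD5a))
      ((hYn u (hκsub hu)).trans (hexp hD5a))
      ((hexp (neg_le_neg hD5b)).trans (hκlow u hu))
    have hA' : ∀ b ∈ S l, T ^ (-D6) ≤ ‖eval (oe (Y u) (X u)) (Ab (F l) (c l) b)‖ ∧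
        ‖eval (oe (Y u) (X u)) (Ab (F l) (c l) b)‖ ≤ T ^ D6 := by
      intro b hb
      exact hA (l, b) (Finset.mem_biUnion.2 ⟨l, Finset.mem_univ l,
        Finset.mem_image_of_mem (fun b => (l, b)) hb⟩)
    have hsum : ∑ b ∈ S l, eval (oe (Y u) (X u)) (Ab (F l) (c l) b) * p u l ^ b = 0 := by
      have h1 := hFrel l (X u) (p u) (hp u hu).1
      rw [(hp u hu).2] at h1
      rw [← h1, ← Finset.sum_fiberwise_of_maps_to (g := Prod.snd) (t := S l)
        (fun e' he' => Finset.mem_image_of_mem _ he')]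
      refine Finset.sum_congr rfl fun b _ => ?_
      rw [eval_Ab, Finset.sum_mul]
      refine Finset.sum_congr rfl fun e' he' => ?_
      rw [(Finset.mem_filter.1 he').2]
    have h2 := root_log (M := T ^ D6) (Real.one_le_rpow hT1 hD60) ((hpne u hu).1 l) hSne
      (fun b hb => by
        rw [← Real.rpow_neg hT0.le]
        exact (hA' b hb).1) (fun b hb => (hA' b hb).2) hsum
    refine h2.trans ?_
    have hcard : (1 : ℝ) ≤ (S l).card := by exact_mod_cast Finset.card_pos.2 hSne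
    have hTp : 0 < T ^ D6 := Real.rpow_pos_of_pos hT0 _
    rw [Real.log_mul (by linarith) (by positivity), Real.log_pow, Real.log_rpow hT0]
    have h3 : Real.log ((S l).card : ℝ) ≤ N := (Real.log_le_self (by linarith)).trans (hcN l)
    push_cast
    rw [hB']
    nlinarith
  -- logarithms
  have hex : ∀ l : Fin n, ∃ h : (Fin n → ℂ) → ℂ, DifferentiableOn ℂ h (ball cc ρ) ∧
      (∀ u ∈ ball cc ρ, Complex.exp (h u) = p u l) ∧ |(h cc).im| ≤ Real.pi := fun l =>
    Pool.Agent.Q177.EG.log n cc ρ (fun u => p u l) hρ0 (differentiableOn_pi.1 hpd' l)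
      (fun u hu => (hpne u hu).1 l)
  choose h hhd hhe hhc using hex
  have hhre : ∀ l, ∀ u ∈ ball cc ρ, |(h l u).re| ≤ B' := by
    intro l u hu
    have h1 : Real.exp ((h l u).re) = ‖p u l‖ := by
      rw [← Complex.norm_exp, hhe l u hu]
    have h2 : (h l u).re = Real.log ‖p u l‖ := by
      rw [← h1, Real.log_exp]
    rw [h2]
    exact hlogp u hu l
  have hbd : ∀ l, ∀ u ∈ ball cc (ρ / 2), ‖h l u‖ ≤ 6 * B' + 10 := fun l =>
    Pool.Agent.Q177.EG.bc n cc ρ B' (h l) hρ0 hB'0 (hhd l) (hhre l) (hhc l)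
  have hsub : ball cc (ρ / 2) ⊆ ball cc ρ := ball_subset_ball (by linarith)
  obtain ⟨u, hu, M, hM⟩ := fixpt (n := n) (i := i) (e := e) (k := k) (κ := κ) (w := w) (r := r)
    (B := B) (B' := 6 * B' + 10) (ρ := ρ / 2) h hei (by linarith) hrB
    (hwd.mono (hsub.trans hκsub)) (fun u hu => hw1 u (hκsub (hsub hu)))
    (fun l => (hhd l).mono hsub) hbd (by
      have h1 := hK3 T k3
      rw [← hρ] at h1
      have h2 : 8 * (4 + (B + 1) * ‖e‖ + (6 * B' + 10)) * 2 ≤
          16 * (14 + (B + 1) * ‖e‖ + 6 * (N + 2 * D6)) * (1 + Real.log T) := by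
        rw [hB']
        have h3 : 0 ≤ (B + 1) * ‖e‖ * Real.log T := by positivity
        nlinarith
      linarith)
  have hu' := hsub hu
  have hexpz : (fun l => Complex.exp (X u l)) = p u := by
    funext l
    by_cases hl : l = i
    · subst hl
      exact (hp u hu').2.symm
    · have e2 : Complex.exp (2 * Real.pi * Complex.I * (M l : ℂ)) = 1 := by
        have := Complex.exp_int_mul_two_pi_mul_I (M l)
        rw [← this]; congr 1; ring
      rw [hX, hM l hl, Complex.exp_add, e2, one_mul, hhe l u hu']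
  refine ⟨X u, ?_, ?_⟩
  · rw [hexpz]; exact (hp u hu').1
  · rw [hexpz]; exact (hpne u hu').2

end Pool.Agent.H410.FH
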