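import Pool.Agent.H664.FH.Stm2
import Pool.Agent.H664.FH.Stage
import Pool.Graph.R_pool_sql_team_seeded_3997aac3.Q72.EG.All

/-! # Project FH (helper664), job CORER (helper410): auxiliary lemmas -/

set_option autoImplicit false

namespace Pool.Agent.H410.FH

open MvPolynomial Filter Topology Metric Pool.Agent.W996.EC Pool.Agent.Q72.EG Pool.Agent.H664.FH

/-- some other partial derivative is not zero -/
theorem exists_pd {n : ℕ} {P : MvPolynomial (Fin n) ℂ} (hP : Irreducible P) {i : Fin n}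
    (h : ∀ c : ℂ, ¬ P ∣ X i - C c) : ∃ l0, l0 ≠ i ∧ pderiv l0 P ≠ 0 := by
  classical
  by_contra hcon
  push Not at hcon
  have hm : ∀ m ∈ P.support, Finsupp.single i (m i) = m := by
    intro m hm
    ext l
    by_cases hl : l = i
    · subst hl; simp
    · rw [Finsupp.single_apply, if_neg (Ne.symm hl)]
      by_contra hml
      have h2 := congrArg (coeff (m - Finsupp.single l 1)) (hcon l hl)
      have h3 : m - Finsupp.single l 1 + Finsupp.single l 1 = m := by
        apply tsub_add_cancel_of_le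
        rw [Finsupp.single_le_iff]
        omega
      rw [coeff_pderiv, coeff_zero, h3] at h2
      rcases mul_eq_zero.1 h2 with h4 | h4
      · exact (mem_support_iff.1 hm) h4
      · exact Nat.cast_add_one_ne_zero _ h4
  set q : Polynomial ℂ := ∑ m ∈ P.support, Polynomial.C (coeff m P) * Polynomial.X ^ (m i) with hq
  have hPq : Polynomial.aeval (X i : MvPolynomial (Fin n) ℂ) q = P := by
    rw [hq, map_sum]
    conv_rhs => rw [P.as_sum]
    refine Finset.sum_congr rfl fun m hmm => ?_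
    rw [map_mul, map_pow, Polynomial.aeval_C, Polynomial.aeval_X, MvPolynomial.algebraMap_eq,
      C_mul_X_pow_eq_monomial, hm m hmm]
  have hdeg : 0 < q.degree := by
    by_contra hd
    push Not at hd
    rw [Polynomial.eq_C_of_degree_le_zero hd, Polynomial.aeval_C, MvPolynomial.algebraMap_eq] at hPq
    by_cases h0 : q.coeff 0 = 0
    · rw [h0, C_0] at hPq
      exact hP.ne_zero hPq.symm
    · apply hP.not_isUnit
      rw [← hPq]
      exact (isUnit_iff_ne_zero.2 h0).map C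
  obtain ⟨c, hc⟩ := IsAlgClosed.exists_root q hdeg.ne'
  obtain ⟨q', hq'⟩ := Polynomial.dvd_iff_isRoot.2 hc
  have hfac : P = (X i - C c) * Polynomial.aeval (X i : MvPolynomial (Fin n) ℂ) q' := by
    rw [← hPq, hq', map_mul, map_sub, Polynomial.aeval_X, Polynomial.aeval_C,
      MvPolynomial.algebraMap_eq]
  rcases hP.isUnit_or_isUnit hfac with h1 | h1
  · have h2 := h1.map (eval (fun _ => c : Fin n → ℂ))
    rw [map_sub, eval_X, eval_C, sub_self] at h2
    exact not_isUnit_zero h2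
  · obtain ⟨v, hv⟩ := h1.exists_right_inv
    apply h c
    refine ⟨v, ?_⟩
    rw [hfac, mul_assoc, hv, mul_one]

/-- the derivative in the direction `e` is not zero -/
theorem pe_ne {n : ℕ} {P : MvPolynomial (Fin n) ℂ} (hP : P ≠ 0) {k e : Fin n → ℝ}
    {w : (Fin n → ℂ) → ℂ} {ρ : ℝ} (hρ : 0 < ρ)
    (h : ∀ u ∈ ball (0 : Fin n → ℂ) ρ, eval (cp k e w u) P = 0) :
    ∑ l, C (e l : ℂ) * pderiv l P ≠ 0 := by
  intro h0
  have h1 : ∀ u ∈ ball (0 : Fin n → ℂ) ρ, eval (fun l => Complex.I * (k l : ℂ) + u l) P = 0 := by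
    intro u hu
    rw [← h u hu]
    have := Pool.Agent.W721.EC.inv_of_Dk (κ := e) (p := P) h0
      (fun l => Complex.I * (k l : ℂ) + u l) (w u)
    rw [← this]
    congr 1
    apply congrArg
    funext l
    simp only [cp]
    ring
  apply hP
  refine MvPolynomial.funext_set (fun l => ball (Complex.I * (k l : ℂ)) ρ) ?_ ?_
  · intro l
    exact infinite_of_mem_nhds _ (ball_mem_nhds _ hρ)
  · intro x hx
    rw [map_zero]
    have h2 := h1 (fun l => x l - Complex.I * (k l : ℂ)) (by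
      rw [mem_ball, dist_zero_right, pi_norm_lt_iff hρ]
      intro l
      have := hx l (Set.mem_univ l)
      rwa [mem_ball, dist_eq_norm] at this)
    simpa using h2

/-- the polynomial `∑_{e.2 = b} c_e(x) Y^e.1` -/
noncomputable def Ab {n : ℕ} (F : Finset (ℕ × ℕ)) (c : ℕ × ℕ → MvPolynomial (Fin n) ℂ) (b : ℕ) :
    MvPolynomial (Option (Fin n)) ℂ :=
  ∑ e ∈ F with e.2 = b, rename some (c e) * X none ^ e.1

theorem eval_Ab {n : ℕ} (F : Finset (ℕ × ℕ)) (c : ℕ × ℕ → MvPolynomial (Fin n) ℂ) (b : ℕ)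
    (x : Fin n → ℂ) (Y : ℂ) :
    eval (oe Y x) (Ab F c b) = ∑ e ∈ F with e.2 = b, eval x (c e) * Y ^ e.1 := by
  unfold Ab
  rw [map_sum]
  refine Finset.sum_congr rfl fun e _ => ?_
  rw [map_mul, map_pow, eval_X, eval_rename]
  rfl

theorem opt_rename {n : ℕ} (g : MvPolynomial (Fin n) ℂ) :
    optionEquivLeft ℂ (Fin n) (rename some g) = Polynomial.C g := by
  induction g using MvPolynomial.induction_on with
  | C c => rw [rename_C, optionEquivLeft_C]
  | add p q hp hq => rw [map_add, map_add, hp, hq, Polynomial.C_add]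
  | mul_X p i hp => rw [map_mul, map_mul, hp, rename_X, optionEquivLeft_X_some, Polynomial.C_mul]

theorem coeff_Ab {n : ℕ} (F : Finset (ℕ × ℕ)) (c : ℕ × ℕ → MvPolynomial (Fin n) ℂ)
    {e : ℕ × ℕ} (he : e ∈ F) :
    (optionEquivLeft ℂ (Fin n) (Ab F c e.2)).coeff e.1 = c e := by
  classical
  unfold Ab
  rw [map_sum, Polynomial.finsetSum_coeff, Finset.sum_eq_single e]
  · rw [map_mul, map_pow, opt_rename, optionEquivLeft_X_none, Polynomial.coeff_C_mul_X_pow,
      if_pos rfl]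
  · intro e' he' hne
    rw [map_mul, map_pow, opt_rename, optionEquivLeft_X_none, Polynomial.coeff_C_mul_X_pow,
      if_neg]
    intro h1
    exact hne (Prod.ext h1.symm (Finset.mem_filter.1 he').2)
  · intro h
    exact (h (Finset.mem_filter.2 ⟨he, rfl⟩)).elim

/-- polynomial bounds in `(Y, x)` -/
theorem pbo {n : ℕ} (g : MvPolynomial (Option (Fin n)) ℂ) (D : ℝ) : ∃ D1 : ℝ, 0 ≤ D1 ∧
    ∀ T : ℝ, 2 ≤ T → ∀ (x : Fin n → ℂ) (Y : ℂ), ‖x‖ ≤ T ^ D → ‖Y‖ ≤ T ^ D →
      ‖eval (oe Y x) g‖ ≤ T ^ D1 := by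
  induction g using MvPolynomial.induction_on with
  | C c =>
    obtain ⟨s, hs, h⟩ := Pool.Agent.Q206.EG.const_le ‖c‖
    exact ⟨s, hs, fun T hT x Y _ _ => by rw [eval_C]; exact h T hT⟩
  | add p q hp hq =>
    obtain ⟨a, ha, hp⟩ := hp
    obtain ⟨b, hb, hq⟩ := hq
    refine ⟨max a b + 1, by positivity, fun T hT x Y hx hY => ?_⟩
    have hT0 : (0 : ℝ) < T := by linarith
    have hT1 : (1 : ℝ) ≤ T := by linarith
    rw [map_add, Real.rpow_add hT0, Real.rpow_one]
    calc ‖eval (oe Y x) p + eval (oe Y x) q‖ ≤ ‖eval (oe Y x) p‖ + ‖eval (oe Y x) q‖ :=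
          norm_add_le _ _
      _ ≤ T ^ a + T ^ b := add_le_add (hp T hT x Y hx hY) (hq T hT x Y hx hY)
      _ ≤ T ^ (max a b) + T ^ (max a b) := by
          gcongr
          · exact le_max_left _ _
          · exact le_max_right _ _
      _ = T ^ (max a b) * 2 := by ring
      _ ≤ T ^ (max a b) * T := by gcongr
  | mul_X p i hp =>
    obtain ⟨a, ha, hp⟩ := hp
    refine ⟨a + max D 0, by positivity, fun T hT x Y hx hY => ?_⟩
    have hT0 : (0 : ℝ) < T := by linarith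
    have hT1 : (1 : ℝ) ≤ T := by linarith
    rw [map_mul, eval_X, norm_mul, Real.rpow_add hT0]
    have h2 : ‖oe Y x i‖ ≤ T ^ (max D 0) := by
      have h3 : T ^ D ≤ T ^ (max D 0) := Real.rpow_le_rpow_of_exponent_le hT1 (le_max_left _ _)
      rcases i with _ | i
      · exact hY.trans h3
      · exact (norm_le_pi_norm x i).trans (hx.trans h3)
    exact mul_le_mul (hp T hT x Y hx hY) h2 (norm_nonneg _) (by positivity)

/-- upper bounds and lower bounds for the divisors of a polynomial -/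
theorem twoo {n : ℕ} {ι : Type} (F : Finset ι) (g : ι → MvPolynomial (Option (Fin n)) ℂ)
    (R' : MvPolynomial (Option (Fin n)) ℂ) (hF : ∀ i ∈ F, g i ∣ R') (D : ℝ) :
    ∃ D1 : ℝ, 0 ≤ D1 ∧ ∀ T : ℝ, 2 ≤ T →
      ∀ (x : Fin n → ℂ) (Y : ℂ), ‖x‖ ≤ T ^ D → ‖Y‖ ≤ T ^ D → T ^ (-D) ≤ ‖eval (oe Y x) R'‖ →
        ∀ i ∈ F, T ^ (-D1) ≤ ‖eval (oe Y x) (g i)‖ ∧ ‖eval (oe Y x) (g i)‖ ≤ T ^ D1 := by
  classical
  induction F using Finset.induction_on with
  | empty => exact ⟨0, le_rfl, fun T _ x Y _ _ _ i hi => absurd hi (Finset.notMem_empty i)⟩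
  | insert a s ha ih =>
    obtain ⟨d1, h1, ih⟩ := ih fun i hi => hF i (Finset.mem_insert_of_mem hi)
    obtain ⟨d2, h2, hg⟩ := pbo (g a) D
    obtain ⟨Q, hQ⟩ := hF a (Finset.mem_insert_self _ _)
    obtain ⟨d3, h3, hl⟩ := pbo Q D
    refine ⟨max d1 (max d2 (|D| + d3)), by positivity, fun T hT x Y hx hY hR i hi => ?_⟩
    have hT1 : (1 : ℝ) ≤ T := by linarith
    have hT0 : (0 : ℝ) < T := by linarith
    have m1 : d1 ≤ max d1 (max d2 (|D| + d3)) := le_max_left _ _
    have m2 : d2 ≤ max d1 (max d2 (|D| + d3)) := (le_max_left _ _).trans (le_max_right _ _)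
    have m3 : |D| + d3 ≤ max d1 (max d2 (|D| + d3)) := (le_max_right _ _).trans (le_max_right _ _)
    rcases Finset.mem_insert.1 hi with rfl | hi
    · refine ⟨?_, (hg T hT x Y hx hY).trans (Real.rpow_le_rpow_of_exponent_le hT1 m2)⟩
      rw [hQ, map_mul, norm_mul] at hR
      have h4 := hl T hT x Y hx hY
      have h5 : T ^ (-D) ≤ ‖eval (oe Y x) (g i)‖ * T ^ d3 := hR.trans (by gcongr)
      have h6 : T ^ (-(D + d3)) ≤ ‖eval (oe Y x) (g i)‖ := by
        have : T ^ (-(D + d3)) = T ^ (-D) * T ^ (-d3) := by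
          rw [← Real.rpow_add hT0]; congr 1; ring
        rw [this]
        calc T ^ (-D) * T ^ (-d3) ≤ (‖eval (oe Y x) (g i)‖ * T ^ d3) * T ^ (-d3) := by gcongr
          _ = ‖eval (oe Y x) (g i)‖ * (T ^ d3 * T ^ (-d3)) := by ring
          _ = ‖eval (oe Y x) (g i)‖ := by
            rw [← Real.rpow_add hT0, add_neg_cancel, Real.rpow_zero, mul_one]
      refine le_trans ?_ h6
      apply Real.rpow_le_rpow_of_exponent_le hT1
      have := le_abs_self D
      linarith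
    · have := ih T hT x Y hx hY hR i hi
      exact ⟨(Real.rpow_le_rpow_of_exponent_le hT1 (neg_le_neg m1)).trans this.1,
        this.2.trans (Real.rpow_le_rpow_of_exponent_le hT1 m1)⟩

/-- roots of a polynomial all of whose nonzero coefficients have comparable sizes -/
theorem root_log {s : Finset ℕ} {a : ℕ → ℂ} {M : ℝ} {p : ℂ} (hM : 1 ≤ M) (hp : p ≠ 0)
    (hs : s.Nonempty) (h1 : ∀ b ∈ s, M⁻¹ ≤ ‖a b‖) (h2 : ∀ b ∈ s, ‖a b‖ ≤ M)
    (h0 : ∑ b ∈ s, a b * p ^ b = 0) :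
    |Real.log ‖p‖| ≤ Real.log (s.card * M ^ 2) := by
  classical
  have hM0 : 0 < M := by linarith
  have hx0 : 0 < ‖p‖ := norm_pos_iff.2 hp
  have hcard : (1 : ℝ) ≤ s.card := by exact_mod_cast Finset.card_pos.2 hs
  have hN : 1 ≤ (s.card : ℝ) * M ^ 2 := by nlinarith
  have key : ∀ b0 ∈ s, ∀ y : ℝ, 0 ≤ y → (∀ b ∈ s.erase b0, ‖p‖ ^ b ≤ ‖p‖ ^ b0 * y) →
      1 ≤ (s.card * M ^ 2) * y := by
    intro b0 hb0 y hy hb
    rw [← Finset.add_sum_erase _ _ hb0] at h0
    have h3 : a b0 * p ^ b0 = - ∑ b ∈ s.erase b0, a b * p ^ b := eq_neg_of_add_eq_zero_left h0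
    have h4 : M⁻¹ * ‖p‖ ^ b0 ≤ ∑ b ∈ s.erase b0, M * (‖p‖ ^ b0 * y) := by
      calc M⁻¹ * ‖p‖ ^ b0 ≤ ‖a b0‖ * ‖p‖ ^ b0 := by
            gcongr
            exact h1 b0 hb0
        _ = ‖∑ b ∈ s.erase b0, a b * p ^ b‖ := by
            rw [← norm_pow, ← norm_mul, h3, norm_neg]
        _ ≤ ∑ b ∈ s.erase b0, ‖a b * p ^ b‖ := norm_sum_le _ _
        _ ≤ ∑ b ∈ s.erase b0, M * (‖p‖ ^ b0 * y) := by
            refine Finset.sum_le_sum fun b hb' => ?_
            rw [norm_mul, norm_pow]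
            exact mul_le_mul (h2 b (Finset.mem_of_mem_erase hb')) (hb b hb') (by positivity)
              hM0.le
    rw [Finset.sum_const, nsmul_eq_mul] at h4
    have h5 : ((s.erase b0).card : ℝ) ≤ s.card := by
      exact_mod_cast Finset.card_le_card (Finset.erase_subset _ _)
    have h6 : M⁻¹ * ‖p‖ ^ b0 ≤ s.card * (M * (‖p‖ ^ b0 * y)) :=
      h4.trans (by gcongr)
    have h7 : 0 < ‖p‖ ^ b0 := by positivity
    have h8 : M⁻¹ * ‖p‖ ^ b0 ≤ (s.card * M * y) * ‖p‖ ^ b0 := by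
      calc M⁻¹ * ‖p‖ ^ b0 ≤ s.card * (M * (‖p‖ ^ b0 * y)) := h6
        _ = _ := by ring
    have h9 : M⁻¹ ≤ s.card * M * y := le_of_mul_le_mul_right h8 h7
    calc (1 : ℝ) = M⁻¹ * M := (inv_mul_cancel₀ hM0.ne').symm
      _ ≤ (s.card * M * y) * M := by gcongr
      _ = _ := by ring
  rcases le_or_gt 1 ‖p‖ with hx | hx
  · have hk := key (s.max' hs) (s.max'_mem hs) ‖p‖⁻¹ (by positivity) (by
      intro b hb
      have h3 : b < s.max' hs := by
        rw [Finset.mem_erase] at hb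
        exact lt_of_le_of_ne (s.le_max' b hb.2) hb.1
      have h4 : ‖p‖ ^ b * ‖p‖ ≤ ‖p‖ ^ (s.max' hs) := by
        rw [← pow_succ]
        exact pow_le_pow_right₀ hx h3
      rw [← div_eq_mul_inv, le_div_iff₀ hx0]
      exact h4)
    have h3 : ‖p‖ ≤ s.card * M ^ 2 := by
      rw [← div_eq_mul_inv, le_div_iff₀ hx0, one_mul] at hk
      exact hk
    rw [abs_of_nonneg (Real.log_nonneg hx)]
    exact Real.log_le_log hx0 h3
  · have hk := key (s.min' hs) (s.min'_mem hs) ‖p‖ hx0.le (by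
      intro b hb
      have h3 : s.min' hs < b := by
        rw [Finset.mem_erase] at hb
        exact lt_of_le_of_ne (s.min'_le b hb.2) (Ne.symm hb.1)
      rw [← pow_succ]
      exact pow_le_pow_of_le_one hx0.le hx.le h3)
    rw [abs_of_nonpos (Real.log_nonpos hx0.le hx.le), ← Real.log_inv]
    apply Real.log_le_log (by positivity)
    rw [inv_eq_one_div, div_le_iff₀ hx0]
    exact hk

/-- polynomials dominate logarithms -/
theorem ev_rpow {σ : ℝ} (hσ : 0 < σ) (A : ℝ) : ∃ K : ℝ, ∀ T : ℝ, K ≤ T → A * (1 + Real.log T) < T ^ σ := by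
  have h1 : Tendsto (fun T : ℝ => Real.log T / T ^ σ) atTop (𝓝 0) :=
    (isLittleO_log_rpow_atTop hσ).tendsto_div_nhds_zero
  have h2 : Tendsto (fun T : ℝ => 1 / T ^ σ) atTop (𝓝 0) := by
    simp only [one_div]
    exact (tendsto_rpow_atTop hσ).inv_tendsto_atTop
  have h3 : Tendsto (fun T : ℝ => A * (1 / T ^ σ + Real.log T / T ^ σ)) atTop (𝓝 0) := by
    have := (h2.add h1).const_mul A
    rwa [add_zero, mul_zero] at this
  have h4 := (h3.eventually_lt_const (show (0 : ℝ) < 1 by norm_num)).and (eventually_gt_atTop (0 : ℝ))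
  obtain ⟨K, hK⟩ := eventually_atTop.1 h4
  refine ⟨K, fun T hT => ?_⟩
  obtain ⟨h5, h6⟩ := hK T hT
  have h7 : 0 < T ^ σ := Real.rpow_pos_of_pos h6 _
  have h8 : A * (1 / T ^ σ + Real.log T / T ^ σ) = A * (1 + Real.log T) / T ^ σ := by
    field_simp
  rw [h8, div_lt_one h7] at h5
  exact h5

end Pool.Agent.H410.FH
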